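import Mathlib
import Pool.Agent.HuaPair25.Final

/-!
Hua systems generated additively by algebraic elements come from Jordan division rings.
-/

set_option autoImplicit false

open Pool.Agent.HuaVal Pool.Agent.HuaOne84 Pool.Agent.HuaPair25

/-- Let `j` be a Hua system on a torsion-free abelian group `A` and `e ≠ 0`.  If the elements of
`A` which are algebraic over the rational numbers, relative to the unit `e`, generate `A` as an
additive group, then `j` arises from a quadratic Jordan division ring. -/
theorem Pool.Agent.HuaOld.AlgebraicallyGenerated.result :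
  ∀ (A : Type) [AddCommGroup A], (∀ (n : ℕ) (a : A), n ≠ 0 → n • a = 0 → a = 0) →
    ∀ j : A → Option A → Option A, IsHua j →
    ∀ e : A, e ≠ 0 → AddSubgroup.closure {a : A | IsAlgOver j e a} = ⊤ → FromJordan j := by
  intro A _ hA j hj e he hgen
  by_contra hn
  obtain ⟨P, R, h1, h2, -, -, -, -, -, h3⟩ := main A hA j hj he he hn
  apply h1
  rw [← top_le_iff, ← hgen, AddSubgroup.closure_le]
  intro a ha
  exact h3 a e e h2 (hj.hs1 e he).2.1 ha
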