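import Mathlib
import Pool.Agent.HuaUltra87.Final

/-!
Hua systems in characteristic zero and in all but finitely many prime characteristics.
-/

set_option autoImplicit false

open Pool.Agent.HuaVal Pool.Agent.HuaOne84

/-- There is a natural number `N` such that every Hua system on a nontrivial abelian group `A` with
no nonzero element killed by one of the numbers `1, ..., N` arises from a quadratic Jordan division
ring.  This covers all torsion-free groups `A` and all `A` with `p A = 0` for a prime `p > N`. -/
theorem Pool.Agent.HuaOld.AlmostAllCharacteristics.result :
  ∃ N : ℕ, ∀ (A : Type) [AddCommGroup A], Nontrivial A →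
    (∀ (n : ℕ) (a : A), n ≠ 0 → n ≤ N → n • a = 0 → a = 0) →
    ∀ j : A → Option A → Option A, IsHua j → FromJordan j :=
  Pool.Agent.HuaUltra87.almost_all
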