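import Mathlib
import Pool.Agent.HuaVal.Ultra

set_option autoImplicit false

open scoped TensorProduct
open Pool.Agent.HuaVal

universe u v w

/-- Every Hua system on an abelian group `A` without elements of order 2 which carries an
unbounded coarse valuation with values in a totally ordered set `C` arises from a quadratic
Jordan division ring. The monotone map `σ` of `C` measures the errors; for `σ = id` this is a
nontrivial valuation with values in an arbitrary chain, for `σ = K * ·` a quasi-norm. -/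
theorem Pool.Agent.HuaOld.CoarseValuation.result :
  ∀ (A : Type u) [AddCommGroup A],
  (∀ a : A, a + a = 0 → a = 0) →
  ∀ j : A → Option A → Option A, IsHua j →
  ∀ (C : Type w) [LinearOrder C] (N : A → C) (σ : C → C),
   Monotone σ → σ (N 0) = N 0 → (∀ a : A, a ≠ 0 → N 0 < N a) →
   (∀ a b : A, N (a + b) ≤ σ (max (N a) (N b))) →
   (∀ k : ℕ, ∃ l : ℕ, ∀ a b c x y : A, a ≠ 0 → b ≠ 0 → c ≠ 0 →
     j a (some b) = some x → j a (some c) = some y →
     N b ≤ σ^[k] (N c) → N y ≤ σ^[l] (N x)) →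
   (∀ k : ℕ, ∃ l : ℕ, ∀ a b c x y : A, a ≠ 0 → b ≠ 0 → c ≠ 0 →
     j a (some c) = some x → j b (some c) = some y →
     N a ≤ σ^[k] (N b) → N x ≤ σ^[l] (N y)) →
   (∀ k : ℕ, ∃ a b : A, b ≠ 0 ∧ σ^[k] (N b) < N a) →
   ∃ (one : A) (U : QuadraticMap ℤ A (Module.End ℤ A)),
     JordanIdentities U one ∧
     (∀ (Ω : Type v) [CommRing Ω] (U' : QuadraticMap Ω (Ω ⊗[ℤ] A) (Module.End Ω (Ω ⊗[ℤ] A))),
        (∀ (a c : A) (ω : Ω), U' ((1 : Ω) ⊗ₜ[ℤ] a) (ω ⊗ₜ[ℤ] c) = ω ⊗ₜ[ℤ] (U a c)) →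
        JordanIdentities U' ((1 : Ω) ⊗ₜ[ℤ] one)) ∧
     (∀ a : A, a ≠ 0 → Function.Bijective (U a)) ∧
     (∀ a b c : A, a ≠ 0 → b ≠ 0 → U b c = b → j a (some b) = some (U a c)) := by
  intro A _ h2 j hj C _ N σ hmono hzero hpos hadd hrev hlef hlarge
  exact Pool.Agent.HuaVal.coarse_valued h2 j hj N σ hmono hzero hpos hadd hrev hlef hlarge
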