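import Mathlib
import Pool.Agent.HuaDom91.SubG3

/-!
Hua systems with a pair of subgroups that does not generate all translations.
-/

set_option autoImplicit false

open Pool.Agent.HuaVal Pool.Agent.HuaOne84 Pool.Agent.HuaDom91

/-- Let `K` be an infinite field of characteristic not two and `A` a `K`-vector space with a Hua
system `j` such that `j_a (t b) = t⁻¹ j_a b` for the scalars `t` outside the prime field.  Let `P`
and `R` be subgroups of `A`, stable under the scalars outside the prime field, such that `P ≠ 0`
and `j_e y ∈ R` for all `y ∉ P`.  If some translation is not in the group generated by the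
translations by `P` and the conjugates under `j_e` of the translations by `R`, then the Hua system
arises from a quadratic Jordan division ring. -/
theorem Pool.Agent.HuaOld.PairGroup.result :
  ∀ (K : Type) [Field K] [Infinite K], (2 : K) ≠ 0 →
    ∀ (A : Type) [AddCommGroup A] [Module K A] (j : A → Option A → Option A), IsHua j →
    (∀ (a b c : A) (t : K), a ≠ 0 → b ≠ 0 → t ∉ (⊥ : Subfield K) →
      j a (some b) = some c → j a (some (t • b)) = some (t⁻¹ • c)) →
    ∀ (e : A) (P R : AddSubgroup A), e ≠ 0 → P ≠ ⊥ →
    (∀ t : K, t ∉ (⊥ : Subfield K) → ∀ x ∈ P, t • x ∈ P) →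
    (∀ t : K, t ∉ (⊥ : Subfield K) → ∀ x ∈ R, t • x ∈ R) →
    (∀ y z : A, y ∉ P → j e (some y) = some z → z ∈ R) →
    (∃ a : A, tr a ∉ GenBy j e (P : Set A) (R : Set A)) →
    FromJordan j := by
  intro K _ _ h2 A _ _ j hj hK e P R he h0 hP hR hpair hG
  exact jordan_of_pairG h2 j hj hK he h0 hP hR hpair hG
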