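import Mathlib
import Pool.Agent.HuaVal.MainTop

set_option autoImplicit false

open scoped TensorProduct
open Filter Topology
open Pool.Agent.HuaVal

universe u v w

/-- Every topological Hua system with small central scalars arises from a quadratic Jordan
division ring, in every characteristic. Here `K` is a field acting on the Hausdorff topological
abelian group `A` such that `j_a (t b) = t⁻¹ j_a b`, the filter `l` of nonzero scalars satisfies
`t ^ n a → 0` for all `n ≥ 1` and all `a`, and the inversion `i = j_e` is continuous at all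
nonzero points, for one `e`. -/
theorem Pool.Agent.HuaOld.TopologicalHua.result :
  ∀ (K : Type w) [Field K] (A : Type u) [AddCommGroup A] [Module K A]
    [TopologicalSpace A] [IsTopologicalAddGroup A] [T2Space A] [ContinuousConstSMul K A]
    (j : A → Option A → Option A), IsHua j →
   (∀ (a b c : A) (t : K), a ≠ 0 → b ≠ 0 → t ≠ 0 → j a (some b) = some c →
      j a (some (t • b)) = some (t⁻¹ • c)) →
   ∀ (l : Filter K) [l.NeBot], (∀ᶠ t in l, t ≠ 0) →
   (∀ n : ℕ, n ≠ 0 → ∀ a : A, Tendsto (fun t : K => t ^ n • a) l (𝓝 0)) →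
   ∀ (e : A) (i : A → A), e ≠ 0 →
   (∀ x : A, x ≠ 0 → j e (some x) = some (i x) ∧ ContinuousAt i x) →
   ∃ (one : A) (U : QuadraticMap ℤ A (Module.End ℤ A)),
     JordanIdentities U one ∧
     (∀ (Ω : Type v) [CommRing Ω] (U' : QuadraticMap Ω (Ω ⊗[ℤ] A) (Module.End Ω (Ω ⊗[ℤ] A))),
        (∀ (a c : A) (ω : Ω), U' ((1 : Ω) ⊗ₜ[ℤ] a) (ω ⊗ₜ[ℤ] c) = ω ⊗ₜ[ℤ] (U a c)) →
        JordanIdentities U' ((1 : Ω) ⊗ₜ[ℤ] one)) ∧
     (∀ a : A, a ≠ 0 → Function.Bijective (U a)) ∧
     (∀ a b c : A, a ≠ 0 → b ≠ 0 → U b c = b → j a (some b) = some (U a c)) := by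
  intro K _ A _ _ _ _ _ _ j hj hK l _ hl0 hl e i he hi
  exact Pool.Agent.HuaVal.topological j hj hK l hl0 hl e he i hi
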