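import Mathlib
import Pool.Agent.HuaOne84.Gen

/-!
Any two points of a torsion-free Hua system generate the Hua system of a commutative field.
-/

set_option autoImplicit false

open Pool.Agent.HuaVal Pool.Agent.HuaOne84

/-- Let `j` be a Hua system on a torsion-free abelian group `A`, and let `e ≠ 0` and `x` be in `A`.
There are a commutative field `L` and an injective additive map `φ : L → A` with `φ 1 = e` and `x`
in its image such that `j` acts on `φ (L)` in the way of the field `L`, and `φ (L)` lies in every
subgroup which contains `e` and `x` and is closed under `j`.  If `e` and `x` generate the whole Hua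
system, then it arises from a quadratic Jordan division ring. -/
theorem Pool.Agent.HuaOld.TwoPointsInField.result :
  ∀ (A : Type) [AddCommGroup A], (∀ (n : ℕ) (a : A), n ≠ 0 → n • a = 0 → a = 0) →
    ∀ j : A → Option A → Option A, IsHua j →
    ∀ e x : A, e ≠ 0 →
    ∃ (L : Type) (_ : Field L) (φ : L →+ A),
      Function.Injective φ ∧ φ 1 = e ∧ (∃ u, φ u = x) ∧ IsFieldPart j φ ∧
      (∀ B : AddSubgroup A, e ∈ B → x ∈ B →
        (∀ a b c : A, a ∈ B → b ∈ B → a ≠ 0 → b ≠ 0 → j a (some b) = some c → c ∈ B) →
        ∀ u, φ u ∈ B) ∧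
      (Function.Surjective φ → FromJordan j) := by
  intro A _ hA j hj e x he
  obtain ⟨L, iF, φ, h1, h2, h3, h4, h5⟩ := gen A hA j hj e x he
  exact ⟨L, iF, φ, h1, h2, h3, h4, h5, fun hs => ofField' A j L φ h1 hs h4⟩
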